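import Pool.Agent.Helper60.Stab.RepF
import Pool.Agent.Helper68.Stab.Unstable

/-! The addition in `[ℂ × W, Z]` by a pinch map of `W`. -/

open CategoryTheory Topology Filter Set Opposite

noncomputable section

namespace Pool.Agent.Helper1.Stab

theorem pinchR_aux33 (m : PMap LC.R (LC.R.sum LC.R).plus) (f g k : PMap LC.R LC.R.plus)
    (hm : ((f.copair g).comp m).Homotopic k) (K : LC) :
    (((f.tens K).copair (g.tens K)).comp
      ((PMap.ofHomeo (dist LC.R LC.R K)).comp (m.tens K))).Homotopic (k.tens K) := by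
  have h1 := hm.box_left (PMap.id K)
  have h2 : ((f.tens K).copair (g.tens K)).comp
      ((PMap.ofHomeo (dist LC.R LC.R K)).comp (m.tens K)) =
      ((f.copair g).comp m).box (PMap.id K) := by
    ext x
    obtain ⟨z, y⟩ := x
    change ((f.tens K).copair (g.tens K)).plus ((PMap.ofHomeo (dist LC.R LC.R K)).plus
      (smashPt (LC.R.sum LC.R) K (m z, (y : OnePoint K)))) =
      smashPt LC.R K ((f.copair g).plus (m z), (y : OnePoint K))
    rcases m z with _ | (a | a)
    · rfl
    · rfl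
    · rfl
  rw [h2]
  exact h1

theorem pinchRK_unit_left33 (K : LC) :
    (((PMap.id (LC.R.prod K)).copair (PMap.zero _ _)).comp (pinchRK K)).Homotopic (PMap.id _) := by
  have := pinchR_aux33 pinchR (PMap.id LC.R) (PMap.zero _ _) (PMap.id LC.R) pinchR_unit_left K
  rw [PMap.tens, PMap.tens, PMap.box_id, zero_box] at this
  exact this

theorem pinchRK_unit_right33 (K : LC) :
    (((PMap.zero _ _).copair (PMap.id (LC.R.prod K))).comp (pinchRK K)).Homotopic (PMap.id _) := by
  have := pinchR_aux33 pinchR (PMap.zero _ _) (PMap.id LC.R) (PMap.id LC.R) pinchR_unit_right K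
  rw [PMap.tens, PMap.tens, PMap.box_id, zero_box] at this
  exact this

/-- the pinch map of a space homeomorphic to `ℝ × K` -/
def pinchAt33 {W K : LC} (ψ : W ≃ₜ LC.R.prod K) : PMap W (W.sum W).plus :=
  ((PMap.ofHomeo (K := LC.R.prod K) (L := W) ψ.symm).sumMap
    (PMap.ofHomeo (K := LC.R.prod K) (L := W) ψ.symm)).comp
    ((pinchRK K).comp (PMap.ofHomeo (K := W) (L := LC.R.prod K) ψ))

theorem homeo_id33 {W V : LC} (ψ : W ≃ₜ V) :
    (PMap.ofHomeo (K := V) (L := W) ψ.symm).comp ((PMap.id V).comp (PMap.ofHomeo ψ)) =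
      PMap.id W := by
  ext w
  change ((ψ.symm (ψ w) : W) : OnePoint W) = (w : OnePoint W)
  rw [ψ.symm_apply_apply]

theorem pinchAt_unit_left33 {W K : LC} (ψ : W ≃ₜ LC.R.prod K) :
    (((PMap.id W).copair (PMap.zero _ _)).comp (pinchAt33 ψ)).Homotopic (PMap.id W) := by
  have h := PMap.Homotopic.comp_right (PMap.ofHomeo (K := LC.R.prod K) (L := W) ψ.symm)
    (PMap.Homotopic.comp_left (pinchRK_unit_left33 K) (PMap.ofHomeo (K := W) (L := LC.R.prod K) ψ))
  rw [homeo_id33] at h
  have e : ((PMap.id W).copair (PMap.zero _ _)).comp (pinchAt33 ψ) =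
      (PMap.ofHomeo (K := LC.R.prod K) (L := W) ψ.symm).comp
        ((((PMap.id (LC.R.prod K)).copair (PMap.zero _ _)).comp (pinchRK K)).comp
          (PMap.ofHomeo (K := W) (L := LC.R.prod K) ψ)) := by
    ext w
    change ((PMap.id W).copair (PMap.zero W W.plus)).plus
      (((PMap.ofHomeo (K := LC.R.prod K) (L := W) ψ.symm).sumMap
        (PMap.ofHomeo (K := LC.R.prod K) (L := W) ψ.symm)).plus (pinchRK K (ψ w))) =
      (PMap.ofHomeo (K := LC.R.prod K) (L := W) ψ.symm).plus
        (((PMap.id (LC.R.prod K)).copair (PMap.zero _ _)).plus (pinchRK K (ψ w)))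
    rcases pinchRK K (ψ w) with _ | (a | a) <;> rfl
  rw [e]
  exact h

theorem pinchAt_unit_right33 {W K : LC} (ψ : W ≃ₜ LC.R.prod K) :
    (((PMap.zero _ _).copair (PMap.id W)).comp (pinchAt33 ψ)).Homotopic (PMap.id W) := by
  have h := PMap.Homotopic.comp_right (PMap.ofHomeo (K := LC.R.prod K) (L := W) ψ.symm)
    (PMap.Homotopic.comp_left (pinchRK_unit_right33 K) (PMap.ofHomeo (K := W) (L := LC.R.prod K) ψ))
  rw [homeo_id33] at h
  have e : ((PMap.zero _ _).copair (PMap.id W)).comp (pinchAt33 ψ) =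
      (PMap.ofHomeo (K := LC.R.prod K) (L := W) ψ.symm).comp
        ((((PMap.zero _ _).copair (PMap.id (LC.R.prod K))).comp (pinchRK K)).comp
          (PMap.ofHomeo (K := W) (L := LC.R.prod K) ψ)) := by
    ext w
    change ((PMap.zero W W.plus).copair (PMap.id W)).plus
      (((PMap.ofHomeo (K := LC.R.prod K) (L := W) ψ.symm).sumMap
        (PMap.ofHomeo (K := LC.R.prod K) (L := W) ψ.symm)).plus (pinchRK K (ψ w))) =
      (PMap.ofHomeo (K := LC.R.prod K) (L := W) ψ.symm).plus
        (((PMap.zero _ _).copair (PMap.id (LC.R.prod K))).plus (pinchRK K (ψ w)))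
    rcases pinchRK K (ψ w) with _ | (a | a) <;> rfl
  rw [e]
  exact h

/-- the map `ℂ × W → (ℂ × W) ⊔ (ℂ × W)` given by a map `W → W ⊔ W` -/
def mOf33 {W : LC} (p : PMap W (W.sum W).plus) :
    PMap (LC.C.prod W) ((LC.C.prod W).sum (LC.C.prod W)).plus :=
  (PMap.ofHomeo (ldist LC.C W W)).comp (PMap.ltens LC.C p)

theorem mOf_copair33 {W : LC} (p : PMap W (W.sum W).plus) (f g : PMap W W.plus) :
    ((PMap.ltens LC.C f).copair (PMap.ltens LC.C g)).comp (mOf33 p) =
      PMap.ltens LC.C ((f.copair g).comp p) := by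
  ext ⟨z, w⟩
  change ((PMap.ltens LC.C f).copair (PMap.ltens LC.C g)).plus
    ((PMap.ofHomeo (ldist LC.C W W)).plus (smashPt LC.C (W.sum W) ((z : OnePoint ℂ), p w))) =
    smashPt LC.C W ((z : OnePoint ℂ), (f.copair g).plus (p w))
  rcases p w with _ | (a | a) <;> rfl

theorem ltens_zero33 (W : LC) :
    PMap.ltens LC.C (PMap.zero W W.plus) = PMap.zero (LC.C.prod W) (LC.C.prod W).plus := by
  ext ⟨z, w⟩
  rfl

theorem mOf_unit_left33 {W : LC} (p : PMap W (W.sum W).plus)
    (p1 : (((PMap.id W).copair (PMap.zero _ _)).comp p).Homotopic (PMap.id W)) :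
    (((PMap.id (LC.C.prod W)).copair (PMap.zero _ _)).comp (mOf33 p)).Homotopic (PMap.id _) := by
  have h := PMap.Homotopic.box_right (PMap.id LC.C) p1
  have e := mOf_copair33 p (PMap.id W) (PMap.zero W W.plus)
  rw [ltens_zero33, PMap.ltens, PMap.box_id] at e
  rw [e]
  rwa [PMap.box_id] at h

theorem mOf_unit_right33 {W : LC} (p : PMap W (W.sum W).plus)
    (p1 : (((PMap.zero _ _).copair (PMap.id W)).comp p).Homotopic (PMap.id W)) :
    (((PMap.zero _ _).copair (PMap.id (LC.C.prod W))).comp (mOf33 p)).Homotopic (PMap.id _) := by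
  have h := PMap.Homotopic.box_right (PMap.id LC.C) p1
  have e := mOf_copair33 p (PMap.zero W W.plus) (PMap.id W)
  rw [ltens_zero33, PMap.ltens, PMap.box_id] at e
  rw [e]
  rwa [PMap.box_id] at h

theorem mOf_interchange33 {W : LC} (p : PMap W (W.sum W).plus) :
    ((pinchK W).sumMap (pinchK W)).comp (mOf33 p) =
      (mid4 (LC.C.prod W)).comp (((mOf33 p).sumMap (mOf33 p)).comp (pinchK W)) := by
  ext ⟨z, w⟩
  change ((pinchK W).sumMap (pinchK W)).plus
      ((PMap.ofHomeo (ldist LC.C W W)).plus (smashPt LC.C (W.sum W) ((z : OnePoint ℂ), p w))) =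
    (mid4 (LC.C.prod W)).plus (((mOf33 p).sumMap (mOf33 p)).plus
      ((PMap.ofHomeo (dist LC.C LC.C W)).plus
        (smashPt (LC.C.sum LC.C) W (pinch z, (w : OnePoint W)))))
  rcases hz : pinch z with _ | (a | a)
  · change _ = (OnePoint.infty : OnePoint _)
    rcases p w with _ | (b | b)
    · rfl
    · change (PMap.inl ((LC.C.prod W).sum (LC.C.prod W)) ((LC.C.prod W).sum (LC.C.prod W))).plus
        ((PMap.ofHomeo (dist LC.C LC.C W)).plus
          (smashPt (LC.C.sum LC.C) W (pinch z, (b : OnePoint W)))) = _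
      rw [hz]
      rfl
    · change (PMap.inr ((LC.C.prod W).sum (LC.C.prod W)) ((LC.C.prod W).sum (LC.C.prod W))).plus
        ((PMap.ofHomeo (dist LC.C LC.C W)).plus
          (smashPt (LC.C.sum LC.C) W (pinch z, (b : OnePoint W)))) = _
      rw [hz]
      rfl
  · change _ = (mid4 (LC.C.prod W)).plus ((PMap.inl ((LC.C.prod W).sum (LC.C.prod W))
      ((LC.C.prod W).sum (LC.C.prod W))).plus ((PMap.ofHomeo (ldist LC.C W W)).plus
        (smashPt LC.C (W.sum W) ((a : OnePoint ℂ), p w))))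
    rcases p w with _ | (b | b)
    · rfl
    · change (PMap.inl ((LC.C.prod W).sum (LC.C.prod W)) ((LC.C.prod W).sum (LC.C.prod W))).plus
        ((PMap.ofHomeo (dist LC.C LC.C W)).plus
          (smashPt (LC.C.sum LC.C) W (pinch z, (b : OnePoint W)))) = _
      rw [hz]
      rfl
    · change (PMap.inr ((LC.C.prod W).sum (LC.C.prod W)) ((LC.C.prod W).sum (LC.C.prod W))).plus
        ((PMap.ofHomeo (dist LC.C LC.C W)).plus
          (smashPt (LC.C.sum LC.C) W (pinch z, (b : OnePoint W)))) = _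
      rw [hz]
      rfl
  · change _ = (mid4 (LC.C.prod W)).plus ((PMap.inr ((LC.C.prod W).sum (LC.C.prod W))
      ((LC.C.prod W).sum (LC.C.prod W))).plus ((PMap.ofHomeo (ldist LC.C W W)).plus
        (smashPt LC.C (W.sum W) ((a : OnePoint ℂ), p w))))
    rcases p w with _ | (b | b)
    · rfl
    · change (PMap.inl ((LC.C.prod W).sum (LC.C.prod W)) ((LC.C.prod W).sum (LC.C.prod W))).plus
        ((PMap.ofHomeo (dist LC.C LC.C W)).plus
          (smashPt (LC.C.sum LC.C) W (pinch z, (b : OnePoint W)))) = _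
      rw [hz]
      rfl
    · change (PMap.inr ((LC.C.prod W).sum (LC.C.prod W)) ((LC.C.prod W).sum (LC.C.prod W))).plus
        ((PMap.ofHomeo (dist LC.C LC.C W)).plus
          (smashPt (LC.C.sum LC.C) W (pinch z, (b : OnePoint W)))) = _
      rw [hz]
      rfl

/-- the sum in `[ℂ × W, Z]` by a unital map `W → W ⊔ W` -/
theorem zadd_eq33 {Z : PT} {W : LC} (p : PMap W (W.sum W).plus)
    (p1 : (((PMap.id W).copair (PMap.zero _ _)).comp p).Homotopic (PMap.id W))
    (p2 : (((PMap.zero _ _).copair (PMap.id W)).comp p).Homotopic (PMap.id W))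
    (f g : PMap (LC.C.prod W) Z) :
    zadd Z f.cls g.cls = ((f.copair g).comp (mOf33 p)).cls := by
  unfold zadd
  have h := (isAddFun_repF Z).op2_eq_add (mOf33 p) (mOf_unit_left33 p p1) (mOf_unit_right33 p p2)
    (by rw [mOf_interchange33]; exact PMap.Homotopic.refl _)
    (f.cls : (repF Z).obj (op (LC.C.prod W))) (g.cls : (repF Z).obj (op (LC.C.prod W)))
  refine Eq.trans h.symm ?_
  unfold IsAddFun.op2
  rw [← pb_repF]
  congr 1
  apply (isAddFun_repF Z).pair_ext
  · rw [(isAddFun_repF Z).pair_inl, pb_repF, copair_cls_inl]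
  · rw [(isAddFun_repF Z).pair_inr, pb_repF, copair_cls_inr]

end Pool.Agent.Helper1.Stab
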