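import Pool.Agent.Helper1.Stab.PR
import Pool.Agent.Helper39.Stab.Ltens

/-! Auxiliary facts for the terms of `R ∧ BU₊`: external products of bundle classes, extension by
zero, and the stabilisation of the classes of projections. -/

open Topology Filter Set Matrix

noncomputable section

namespace Pool.Agent.Helper33.Stab

open Pool.Agent.Helper1.Stab Pool.Agent.Helper39.Stab

/-! ### Formal facts -/

theorem comp_zero33 {R : Biv} {K L M : LC} (x : R.Hom K L) : R.comp x (0 : R.Hom L M) = 0 := by
  have h := R.comp_add x (0 : R.Hom L M) 0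
  rw [add_zero] at h
  exact left_eq_add.1 h

theorem zero_comp33 {R : Biv} {K L M : LC} (y : R.Hom L M) : R.comp (0 : R.Hom K L) y = 0 := by
  have h := R.add_comp (0 : R.Hom K L) 0 y
  rw [add_zero] at h
  exact left_eq_add.1 h

theorem tens_zero33 {R : Biv} {K L : LC} (Z : LC) : R.tens (0 : R.Hom K L) Z = 0 := by
  have h := R.tens_add (0 : R.Hom K L) 0 Z
  rw [add_zero] at h
  exact left_eq_add.1 h

/-- the class of a continuous map of compact spaces -/
abbrev JC (R : Biv) {K L : LC} [CompactSpace K] (f : K → L) (hf : Continuous f) : R.Hom K L :=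
  R.J (PMap.ofCont (K := K) (L := L) f hf)

/-- the external product is the product of the pull-backs -/
theorem mul_pr33 (R : GBiv) {K L : LC} [CompactSpace K] [CompactSpace L] (x : R.Hom K LC.point)
    (y : R.Hom L LC.point) :
    R.mul (K := K.prod L) (R.comp (R.J (PMap.ofCont (K := K.prod L) (L := K) Prod.fst
        continuous_fst)) x)
      (R.comp (R.J (PMap.ofCont (K := K.prod L) (L := L) Prod.snd continuous_snd)) y) =
    R.comp (R.comp (R.tens x L) (R.ltens LC.point y)) (R.J (PMap.ofHomeo (LC.lunit LC.point))) := by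
  unfold GBiv.mul
  rw [R.tens_comp, R.tens_J, ltens_comp R.toBiv, ltens_J R.toBiv]
  have h1 := tens_exch R.toBiv x (PMap.ofCont (K := K.prod L) (L := L) Prod.snd continuous_snd)
  rw [R.assoc (R.J _) (R.tens x (K.prod L)), ← R.assoc (R.tens x (K.prod L)), h1]
  simp only [← R.assoc]
  rw [← R.J_comp, ← R.J_comp]
  have h2 : (PMap.ltens K (PMap.ofCont (K := K.prod L) (L := L) Prod.snd continuous_snd)).comp
      ((PMap.tens (PMap.ofCont (K := K.prod L) (L := K) Prod.fst continuous_fst) (K.prod L)).comp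
        (graph (X := K.prod L) (L := K.prod L) (fun k => k) continuous_id)) = PMap.id _ := by
    ext x
    rfl
  rw [h2, R.id_comp]

theorem inc_ltens33 {R : Biv} (P : PRTheory R) (Z : LC) {K L : LC} (x : R.Hom K L) :
    P.inc (R.ltens Z x) = P.ltens Z (P.inc x) := by
  unfold BivData.ltens
  rw [P.inc_comp, P.inc_comp, P.inc_J, P.inc_J, P.inc_tens]

theorem inc_zero33 {R : Biv} (P : PRTheory R) {K L : LC} : P.inc (0 : R.Hom K L) = 0 := by
  have h := P.inc_add (0 : R.Hom K L) 0
  rw [add_zero] at h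
  exact left_eq_add.1 h

/-! ### Classes of bundles -/

open Classical in
/-- the rows of a projection, extended by zero -/
def extW33 {S T : Type} [Fintype S] [Fintype T] (j : S ↪ T) {n : ℕ} (P : Pr S n) :
    Matrix T S ℂ :=
  fun t s => if h : ∃ s', j s' = t then P.1 h.choose s else 0

theorem extW33_apply {S T : Type} [Fintype S] [Fintype T] (j : S ↪ T) {n : ℕ} (P : Pr S n)
    (a s : S) : extW33 j P (j a) s = P.1 a s := by
  have h1 : ∃ s', j s' = j a := ⟨a, rfl⟩
  unfold extW33
  rw [dif_pos h1, j.injective h1.choose_spec]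

theorem extW33_zero {S T : Type} [Fintype S] [Fintype T] (j : S ↪ T) {n : ℕ} (P : Pr S n)
    {t : T} (h : ¬ ∃ s', j s' = t) (s : S) : extW33 j P t s = 0 := dif_neg h

theorem extW33_cont {S T : Type} [Fintype S] [Fintype T] (j : S ↪ T) {n : ℕ} :
    Continuous (extW33 j : Pr S n → Matrix T S ℂ) := by
  refine continuous_matrix fun t s => ?_
  by_cases h : ∃ s', j s' = t
  · obtain ⟨a, rfl⟩ := h
    simp only [extW33_apply]
    exact (continuous_apply_apply _ _).comp Pr.continuous_val69
  · simp only [extW33_zero j _ h]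
    exact continuous_const

/-- extension by zero is an equivalence -/
theorem uequiv_ext33 {S T : Type} [Fintype S] [Fintype T] (j : S ↪ T) (n : ℕ) :
    UEquiv (fun P : Pr S n => P) (fun P => Pr.ext j P) := by
  refine ⟨extW33 j, extW33_cont j, ?_, ?_⟩
  · intro P
    ext a b
    have h := congrFun (congrFun P.2.2.1 a) b
    rw [Matrix.mul_apply] at h
    rw [Matrix.mul_apply]
    refine Eq.trans ?_ h
    symm
    refine Fintype.sum_of_injective j j.injective _ _ ?_ ?_
    · intro t ht
      rw [extW33_zero j P (fun h => ht h), mul_zero]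
    · intro s
      rw [Matrix.conjTranspose_apply, extW33_apply, extW33_apply]
      congr 1
      exact (congrFun (congrFun P.2.1 a) s).symm
  · intro P
    ext x y
    rw [Matrix.mul_apply]
    by_cases hx : ∃ s, j s = x
    · by_cases hy : ∃ s, j s = y
      · obtain ⟨a, rfl⟩ := hx
        obtain ⟨b, rfl⟩ := hy
        have h := congrFun (congrFun P.2.2.1 a) b
        rw [Matrix.mul_apply] at h
        rw [ThL.ext_apply]
        refine Eq.trans ?_ h
        refine Finset.sum_congr rfl fun s _ => ?_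
        rw [Matrix.conjTranspose_apply, extW33_apply, extW33_apply]
        congr 1
        exact congrFun (congrFun P.2.1 s) b
      · rw [ThL.ext_zero j P (fun h => hy h.2)]
        refine Finset.sum_eq_zero fun s _ => ?_
        rw [Matrix.conjTranspose_apply, extW33_zero j P hy, star_zero, mul_zero]
    · rw [ThL.ext_zero j P (fun h => hx h.1)]
      refine Finset.sum_eq_zero fun s _ => ?_
      rw [extW33_zero j P hx, zero_mul]

theorem bun_pull33 (R : GBiv) {K : LC} [CompactSpace K] {S : Type} [Fintype S] {n : ℕ}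
    (f : K → Pr S n) (hf : Continuous f) :
    R.comp (R.J (PMap.ofCont (K := K) (L := LC.Pr S n) f hf))
      (R.bun (K := LC.Pr S n) (ContinuousMap.id _)) = R.bun ⟨f, hf⟩ :=
  R.bun_comp (K := K) (L := LC.Pr S n) ⟨f, hf⟩ (ContinuousMap.id _)

theorem bun_ext33 (R : GBiv) {S T : Type} [Fintype S] [Fintype T] (j : S ↪ T) (n : ℕ) :
    R.comp (R.J (Pr.extM j n)) (R.bun (K := LC.Pr T n) (ContinuousMap.id _)) =
      R.bun (K := LC.Pr S n) (ContinuousMap.id _) := by
  refine (bun_pull33 R (K := LC.Pr S n) (Pr.ext j) (Pr.continuous_ext j)).trans ?_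
  exact (R.bun_congr (K := LC.Pr S n) (ContinuousMap.id _) ⟨Pr.ext j, Pr.continuous_ext j⟩
    (uequiv_ext33 j n)).symm

theorem bun_point33 (R : GBiv) {S : Type} [Fintype S] {n : ℕ} (k : Pr S n) :
    R.comp (R.J (PMap.ofPoint (K := LC.Pr S n) k))
      (R.bun (K := LC.Pr S n) (ContinuousMap.id _)) = R.J (PMap.id LC.point) := by
  refine (bun_pull33 R (K := LC.point) (fun _ => k) continuous_const).trans ?_
  refine (R.bun_const (K := LC.point) k).trans ?_
  unfold GBiv.one
  congr 1

theorem bun_GK33 (R : GBiv) (κ : Type) [Fintype κ] :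
    R.bun (K := LC.Pr (κ × Bool) (Fintype.card κ)) (S := κ × Bool) (n := Fintype.card κ)
      (ContinuousMap.id _) = R.g κ := by
  refine (R.bun_GK (K := LC.G κ) (κ := κ) (ContinuousMap.id _)).trans ?_
  refine Eq.trans ?_ (R.id_comp (R.g κ))
  congr 1

/-! ### Stabilisation of the class of a projection -/

theorem reMap_aux33 {κ U : Type} [Fintype κ] [Fintype U] (e : κ × Bool ≃ U) {N : ℕ}
    (hN : N = Fintype.card κ) (P : GK κ) :
    (P.1.submatrix e.symm e.symm)ᴴ = P.1.submatrix e.symm e.symm ∧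
      P.1.submatrix e.symm e.symm * P.1.submatrix e.symm e.symm = P.1.submatrix e.symm e.symm ∧
      (P.1.submatrix e.symm e.symm).trace = N := by
  refine ⟨?_, ?_, ?_⟩
  · rw [Matrix.conjTranspose_submatrix, P.2.1]
  · rw [Matrix.submatrix_mul_equiv, P.2.2.1]
  · rw [hN]
    refine Eq.trans ?_ P.2.2.2
    exact e.symm.sum_comp (fun x => P.1 x x)

/-- renaming the coordinates of a projection in the Grassmannian -/
def reMap33 {κ U : Type} [Fintype κ] [Fintype U] (e : κ × Bool ≃ U) {N : ℕ}
    (hN : N = Fintype.card κ) (P : GK κ) : Pr U N :=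
  ⟨P.1.submatrix e.symm e.symm, reMap_aux33 e hN P⟩

theorem reMap_cont33 {κ U : Type} [Fintype κ] [Fintype U] (e : κ × Bool ≃ U) {N : ℕ}
    (hN : N = Fintype.card κ) : Continuous (reMap33 e hN) := by
  refine Continuous.subtype_mk ?_ _
  have h : Continuous (fun P : GK κ => P.1) := continuous_subtype_val
  exact continuous_matrix fun x y => (continuous_apply_apply (e.symm x) (e.symm y)).comp h

theorem coord_pos33 {S : Type} [Fintype S] (T : Finset S) {x : S} (h : x ∈ T) :
    (Pr.coord T).1 x x = 1 := by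
  unfold Pr.coord
  exact if_pos ⟨rfl, h⟩

theorem coord_neg33 {S : Type} [Fintype S] (T : Finset S) {x y : S} (h : ¬ (x = y ∧ x ∈ T)) :
    (Pr.coord T).1 x y = 0 := by
  unfold Pr.coord
  exact if_neg h

theorem base_pos33 {κ : Type} [Fintype κ] {x : κ × Bool} (h : x.2 = true) :
    (GK.base κ).1 x x = 1 := by
  unfold GK.base
  exact if_pos ⟨rfl, h⟩

theorem base_neg33 {κ : Type} [Fintype κ] {x y : κ × Bool} (h : ¬ (x = y ∧ x.2 = true)) :
    (GK.base κ).1 x y = 0 := by
  unfold GK.base
  exact if_neg h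

open Classical in
theorem toG_apply33 {S : Type} [Fintype S] {n : ℕ} (T : Finset S)
    (hT : n + T.card = Fintype.card S) (V : Pr S n) (x y : S × Bool) :
    (Pr.toG T hT V).1 x y = if x.2 = true ∧ y.2 = true then V.1 x.1 y.1
      else if x.2 = false ∧ y.2 = false ∧ x.1 = y.1 ∧ x.1 ∈ T then 1 else 0 := rfl

theorem toG_tt33 {S : Type} [Fintype S] {n : ℕ} (T : Finset S)
    (hT : n + T.card = Fintype.card S) (V : Pr S n) (s t : S) :
    (Pr.toG T hT V).1 (s, true) (t, true) = V.1 s t := by
  rw [toG_apply33]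
  simp

theorem toG_pos33 {S : Type} [Fintype S] {n : ℕ} (T : Finset S)
    (hT : n + T.card = Fintype.card S) (V : Pr S n) {s : S} (h : s ∈ T) :
    (Pr.toG T hT V).1 (s, false) (s, false) = 1 := by
  rw [toG_apply33]
  simp [h]

theorem toG_neg33 {S : Type} [Fintype S] {n : ℕ} (T : Finset S)
    (hT : n + T.card = Fintype.card S) (V : Pr S n) {x y : S × Bool}
    (h : ¬ (x.2 = true ∧ y.2 = true)) (h' : ¬ (x.2 = false ∧ y.2 = false ∧ x.1 = y.1 ∧ x.1 ∈ T)) :
    (Pr.toG T hT V).1 x y = 0 := by
  unfold Pr.toG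
  exact (if_neg h).trans (if_neg h')

/-- the bijection of coordinates -/
def stabE33 (S : Type) (m : ℕ) : (S ⊕ Fin m) × Bool ≃ S ⊕ (S ⊕ (Fin m × Bool)) where
  toFun x := match x with
    | (.inl s, true) => .inl s
    | (.inl s, false) => .inr (.inl s)
    | (.inr i, b) => .inr (.inr (i, b))
  invFun x := match x with
    | .inl s => (.inl s, true)
    | .inr (.inl s) => (.inl s, false)
    | .inr (.inr (i, b)) => (.inr i, b)
  left_inv x := by rcases x with ⟨s | i, _ | _⟩ <;> rfl
  right_inv x := by rcases x with s | s | ⟨i, b⟩ <;> rfl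

/-- the coordinates that are added -/
def stabT33 {S : Type} (T : Finset S) (m : ℕ) : Finset (S ⊕ (Fin m × Bool)) :=
  T.disjSum (Finset.univ ×ˢ {true})

theorem card_stabT33 {S : Type} (T : Finset S) (m : ℕ) : (stabT33 T m).card = T.card + m := by
  unfold stabT33
  rw [Finset.card_disjSum, Finset.card_product, Finset.card_univ, Fintype.card_fin,
    Finset.card_singleton, mul_one]

theorem stab_rank33 {S : Type} [Fintype S] {n : ℕ} (T : Finset S)
    (hT : n + T.card = Fintype.card S) (m : ℕ) :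
    n + (stabT33 T m).card = Fintype.card (S ⊕ Fin m) := by
  rw [card_stabT33, Fintype.card_sum, Fintype.card_fin, ← hT, add_assoc]

theorem stab_toG33 {S : Type} [Fintype S] {n : ℕ} (T : Finset S)
    (hT : n + T.card = Fintype.card S) (m : ℕ) (V : Pr S n) :
    reMap33 (stabE33 S m) (stab_rank33 T hT m) (GK.sum (Pr.toG T hT V, GK.base (Fin m))) =
      Pr.sum (V, Pr.coord (stabT33 T m)) := by
  refine Subtype.ext ?_
  ext x y
  rcases x with s | s | ⟨i, b⟩ <;> rcases y with t | t | ⟨j, c⟩
  · exact toG_tt33 T hT V s t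
  · exact toG_neg33 T hT V (x := (s, true)) (y := (t, false)) (fun h => Bool.false_ne_true h.2)
      (fun h => Bool.false_ne_true h.1.symm)
  · rfl
  · exact toG_neg33 T hT V (x := (s, false)) (y := (t, true)) (fun h => Bool.false_ne_true h.1)
      (fun h => Bool.false_ne_true h.2.1.symm)
  · change (Pr.toG T hT V).1 (s, false) (t, false) =
      (Pr.coord (stabT33 T m)).1 (Sum.inl s) (Sum.inl t)
    by_cases h : s = t ∧ s ∈ T
    · obtain ⟨rfl, h⟩ := h
      rw [toG_pos33 T hT V h, coord_pos33]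
      exact Finset.inl_mem_disjSum.2 h
    · rw [toG_neg33 T hT V (x := (s, false)) (y := (t, false))
        (fun h => Bool.false_ne_true h.1) (fun h' => h h'.2.2), coord_neg33]
      rintro ⟨h1, h2⟩
      exact h ⟨Sum.inl_injective h1, Finset.inl_mem_disjSum.1 h2⟩
  · change (0 : ℂ) = (Pr.coord (stabT33 T m)).1 (Sum.inl s) (Sum.inr (j, c))
    rw [coord_neg33]
    rintro ⟨h, -⟩
    exact Sum.inl_ne_inr h
  · rfl
  · change (0 : ℂ) = (Pr.coord (stabT33 T m)).1 (Sum.inr (i, b)) (Sum.inl t)
    rw [coord_neg33]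
    rintro ⟨h, -⟩
    exact Sum.inr_ne_inl h
  · change (GK.base (Fin m)).1 (i, b) (j, c) =
      (Pr.coord (stabT33 T m)).1 (Sum.inr (i, b)) (Sum.inr (j, c))
    by_cases h : (i, b) = (j, c) ∧ b = true
    · obtain ⟨h1, h2⟩ := h
      rw [← h1, base_pos33 (x := (i, b)) h2, coord_pos33]
      refine Finset.inr_mem_disjSum.2 ?_
      exact Finset.mem_product.2 ⟨Finset.mem_univ _, Finset.mem_singleton.2 h2⟩
    · rw [base_neg33 (x := (i, b)) (y := (j, c)) h, coord_neg33]
      rintro ⟨h1, h2⟩
      exact h ⟨Sum.inr_injective h1,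
        Finset.mem_singleton.1 (Finset.mem_product.1 (Finset.inr_mem_disjSum.1 h2)).2⟩

/-- the class of the map `V ↦ V ⊕ Q` factors over the stabilisation -/
theorem J_sum33 (R : Biv) {S : Type} [Fintype S] {n : ℕ} (T : Finset S)
    (hT : n + T.card = Fintype.card S) (m : ℕ) :
    R.J (PMap.ofCont (K := LC.Pr S n)
      (L := LC.Pr (S ⊕ (S ⊕ (Fin m × Bool))) (n + (stabT33 T m).card))
      (fun V => Pr.sum (V, Pr.coord (stabT33 T m)))
      (Pr.continuous_sum.comp (continuous_id.prodMk continuous_const))) =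
    R.comp (R.comp (R.J (PMap.ofCont (K := LC.Pr S n) (L := LC.G S) (Pr.toG T hT)
      (Pr.continuous_toG T hT))) (R.J (GK.stab S (Fin m))))
      (R.J (PMap.ofCont (K := LC.G (S ⊕ Fin m))
        (L := LC.Pr (S ⊕ (S ⊕ (Fin m × Bool))) (n + (stabT33 T m).card))
        (reMap33 (stabE33 S m) (stab_rank33 T hT m)) (reMap_cont33 _ _))) := by
  rw [← R.J_comp, ← R.J_comp]
  congr 1
  ext V
  exact congrArg _ (stab_toG33 T hT m V).symm

end Pool.Agent.Helper33.Stab
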